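import Pool.Agent.H977.CC.AsH

/-! # Order of magnitude of the clique chromatic number of `G(n,p)` near `n^(-2/5)` and `n^(-1/3)`

With high probability `χ_c(G(n,p))` is of order
* `f₁(n,p) = log(1 + n p^(5/2) / √(log n)) / p` for `n^(-2/5-ε) ≪ p ≪ n^(-2/5+ε)`, `ε < 1/15`;
* `f₂(n,p) = max(log n - 3 n p³, log(n p³)) / p` for `n^(-1/3)/3 ≤ p ≪ n^(-1/3+ε)`, `ε < 1/3`.
Moreover the order of magnitude is determined for all `n^(-1/2+δ) ≪ p ≪ n^(-δ)`.

All notions of the statement are defined in this file. -/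

open Filter Topology

namespace Pool.Agent.Results.MP_21207b_pr.OrderNearThresholds

/-- A clique colouring: no inclusion-maximal clique with at least two vertices is
monochromatic. -/
def IsCliqueColouring {V : Type*} (G : SimpleGraph V) {k : ℕ} (c : V → Fin k) : Prop :=
  ∀ s : Set V, Maximal (fun t : Set V => G.IsClique t) s → s.Nontrivial →
    ¬ ∃ i, ∀ v ∈ s, c v = i

/-- The clique chromatic number `χ_c(G)`. -/
noncomputable def cliqueChromaticNumber {V : Type*} (G : SimpleGraph V) : ℕ :=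
  sInf {k | ∃ c : V → Fin k, IsCliqueColouring G c}

/-- `f₁(n,p) = log(1 + n p^(5/2) / √(log n)) / p`. -/
noncomputable def f₁ (n : ℕ) (p : ℝ) : ℝ :=
  Real.log (1 + n * p ^ (5 / 2 : ℝ) / Real.sqrt (Real.log n)) / p

/-- `f₂(n,p) = max(log n - 3 n p³, log(n p³)) / p`. -/
noncomputable def f₂ (n : ℕ) (p : ℝ) : ℝ :=
  max (Real.log n - 3 * (n * p ^ 3)) (Real.log (n * p ^ 3)) / p

open Classical in
/-- `f₁` up to `n^(-1/3)` and `f₂` above. -/
noncomputable def f (n : ℕ) (p : ℝ) : ℝ :=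
  if p ≤ (n : ℝ) ^ (-(1 / 3) : ℝ) then f₁ n p else f₂ n p

/-- With probability tending to one, `c g(n,p) ≤ χ_c(G(n,p)) ≤ C g(n,p)`. -/
def WhpBetween (p : ℕ → unitInterval) (g : ℕ → ℝ → ℝ) (c C : ℝ) : Prop :=
  Tendsto (fun n : ℕ => (SimpleGraph.binomialRandom (Fin n) (p n))
    {G : SimpleGraph (Fin n) | c * g n (p n) ≤ (cliqueChromaticNumber G : ℝ) ∧
      (cliqueChromaticNumber G : ℝ) ≤ C * g n (p n)}) atTop (𝓝 1)

/-- Q1, Q2 and the whole range `n^(-1/2+δ) ≪ p ≪ n^(-δ)`. The constants depend only on `ε`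
(or `δ`). -/
theorem result :
    (∀ ε : ℝ, 0 < ε → ε < 1 / 15 → ∃ c C : ℝ, 0 < c ∧ c ≤ C ∧ ∀ p : ℕ → unitInterval,
      Tendsto (fun n : ℕ => (p n : ℝ) / (n : ℝ) ^ (-(2 / 5) - ε)) atTop atTop →
      Tendsto (fun n : ℕ => (p n : ℝ) / (n : ℝ) ^ (-(2 / 5) + ε)) atTop (𝓝 0) →
      WhpBetween p f₁ c C) ∧
    (∀ ε : ℝ, 0 < ε → ε < 1 / 3 → ∃ c C : ℝ, 0 < c ∧ c ≤ C ∧ ∀ p : ℕ → unitInterval,
      (∀ᶠ n : ℕ in atTop, 1 / 3 * (n : ℝ) ^ (-(1 / 3) : ℝ) ≤ (p n : ℝ)) →
      Tendsto (fun n : ℕ => (p n : ℝ) / (n : ℝ) ^ (-(1 / 3) + ε)) atTop (𝓝 0) →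
      WhpBetween p f₂ c C) ∧
    (∀ δ : ℝ, 0 < δ → ∃ c C : ℝ, 0 < c ∧ c ≤ C ∧ ∀ p : ℕ → unitInterval,
      Tendsto (fun n : ℕ => (p n : ℝ) / (n : ℝ) ^ (-(1 / 2) + δ)) atTop atTop →
      Tendsto (fun n : ℕ => (p n : ℝ) / (n : ℝ) ^ (-δ)) atTop (𝓝 0) →
      WhpBetween p f c C) := by
  refine ⟨?_, ?_, ?_⟩
  · intro ε hε hε2
    obtain ⟨c, hc0, hc1, N, hN⟩ := Pool.Agent.H977.CC.bothZ (ε := 1 / 10 - ε) (by linarith)
    refine ⟨c, 100, hc0, by linarith, fun p h1 h2 => ?_⟩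
    refine Pool.Agent.H977.CC.tendsto_one (B := fun n => {G | ¬
      (c * f₁ n (p n) ≤ (cliqueChromaticNumber G : ℝ) ∧
        (cliqueChromaticNumber G : ℝ) ≤ 100 * f₁ n (p n))})
      (b := fun n => 10 * Real.exp (-Real.log n)) ?_ ?_
      (Pool.Agent.H977.CC.tendsto_exp_neg_log 10)
    · exact Eventually.of_forall fun n G hG => by simpa using hG
    · filter_upwards [Pool.Agent.H977.CC.range_log h1 h2, eventually_ge_atTop N] with n h3 h4
      have hL0 : 0 ≤ Real.log n := Real.log_natCast_nonneg n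
      refine hN n h4 (p n) h3.1 ?_ ?_
      · have h5 := h3.2.1
        nlinarith
      · have h5 := h3.2.2
        nlinarith
  · intro ε hε hε2
    obtain ⟨c, hc0, hc1, N, hN⟩ := Pool.Agent.H977.CC.bothA (ε := 1 / 3 - ε) (by linarith)
    refine ⟨c, 100, hc0, by linarith, fun p h1 h2 => ?_⟩
    have hp : ∀ᶠ n : ℕ in atTop, (0 : ℝ) < p n := by
      filter_upwards [h1, eventually_gt_atTop 0] with n h3 h4
      exact (Pool.Agent.H977.CC.third_log h4 h3).1
    refine Pool.Agent.H977.CC.tendsto_one (B := fun n => {G | ¬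
      (c * f₂ n (p n) ≤ (cliqueChromaticNumber G : ℝ) ∧
        (cliqueChromaticNumber G : ℝ) ≤ 100 * f₂ n (p n))})
      (b := fun n => 10 * Real.exp (-Real.log n)) ?_ ?_
      (Pool.Agent.H977.CC.tendsto_exp_neg_log 10)
    · exact Eventually.of_forall fun n G hG => by simpa using hG
    · filter_upwards [hp, h1, Pool.Agent.H977.CC.up_log hp h2, eventually_ge_atTop N,
        eventually_gt_atTop 0] with n h3 h4 h5 h6 h7
      refine hN n h6 (p n) h3 ?_ (Pool.Agent.H977.CC.third_log h7 h4).2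
      have e : -(-(1 / 3) + ε) * Real.log n = (1 / 3 - ε) * Real.log n := by ring
      rwa [e] at h5
  · intro δ hδ
    obtain ⟨c₁, hc0, hc1, N₁, hN₁⟩ := Pool.Agent.H977.CC.bothZ hδ
    obtain ⟨c₂, hc0', hc1', N₂, hN₂⟩ := Pool.Agent.H977.CC.bothA hδ
    obtain ⟨N₃, hN₃⟩ := Pool.Agent.H977.CC.AA_nonneg
    refine ⟨min c₁ c₂, 100, lt_min hc0 hc0', (min_le_left _ _).trans (by linarith),
      fun p h1 h2 => ?_⟩
    refine Pool.Agent.H977.CC.tendsto_one (B := fun n => {G | ¬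
      (min c₁ c₂ * f n (p n) ≤ (cliqueChromaticNumber G : ℝ) ∧
        (cliqueChromaticNumber G : ℝ) ≤ 100 * f n (p n))})
      (b := fun n => 10 * Real.exp (-Real.log n)) ?_ ?_
      (Pool.Agent.H977.CC.tendsto_exp_neg_log 10)
    · exact Eventually.of_forall fun n G hG => by simpa using hG
    · filter_upwards [Pool.Agent.H977.CC.range_log h1 h2, eventually_ge_atTop N₁,
        eventually_ge_atTop N₂, eventually_gt_atTop 0, eventually_ge_atTop N₃] with n h3 h4 h5 h6 h9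
      obtain ⟨hp0, hx1, hx2⟩ := h3
      rw [neg_neg] at hx1
      have e : -(-(1 / 2) + δ) * Real.log n = (1 / 2 - δ) * Real.log n := by ring
      rw [e] at hx2
      have hL0 : 0 ≤ Real.log n := Real.log_natCast_nonneg n
      by_cases hq : (p n : ℝ) ≤ (n : ℝ) ^ (-(1 / 3) : ℝ)
      · have h7 := (Pool.Agent.H977.CC.rpow_facts h6 hp0).1.1 hq
        have h8 := hN₁ n h4 (p n) hp0 (by linarith) hx2
        have hff : f n (p n) = f₁ n (p n) := by unfold f; exact if_pos hq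
        have hnn : 0 ≤ f₁ n (p n) := by
          unfold f₁
          refine div_nonneg (Real.log_nonneg ?_) hp0.le
          have : 0 ≤ (n : ℝ) * (p n : ℝ) ^ (5 / 2 : ℝ) / Real.sqrt (Real.log n) := by positivity
          linarith
        rw [hff]
        refine le_trans (MeasureTheory.measureReal_mono ?_ (MeasureTheory.measure_ne_top _ _)) h8
        intro G hG hcon
        exact hG ⟨(mul_le_mul_of_nonneg_right (min_le_left _ _) hnn).trans hcon.1, hcon.2⟩
      · have h7 : -Real.log (p n : ℝ) ≤ Real.log n / 3 := by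
          have h8 := (Pool.Agent.H977.CC.rpow_facts (c := -(1 / 3)) h6 hp0).2.1 (not_le.1 hq).le
          linarith
        have h8 := hN₂ n h5 (p n) hp0 hx1 (by linarith)
        have hff : f n (p n) = f₂ n (p n) := by unfold f; exact if_neg hq
        have hnn : 0 ≤ f₂ n (p n) := hN₃ n h9 (p n) hp0
        rw [hff]
        refine le_trans (MeasureTheory.measureReal_mono ?_ (MeasureTheory.measure_ne_top _ _)) h8
        intro G hG hcon
        exact hG ⟨(mul_le_mul_of_nonneg_right (min_le_right _ _) hnn).trans hcon.1, hcon.2⟩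

end Pool.Agent.Results.MP_21207b_pr.OrderNearThresholds
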